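import Pool.Agent.H201.HK.Main

/-!
# The functions `h_κ` for all finite `κ` have the same growth

For `2 ≤ κ ≤ ω` let `h_κ(n)` be the bound of the problem: each equation `D(n, x_1, ..., x_i) = 0` with
`D ∈ B(κ, n)` has a solution `≤ h_κ(n)`. Let `hmax_κ(n)` be the least bound for all solutions of these
equations. Q1 for `κ` asks if `h_κ` is majorized by a computable function.

**Theorem.**

1. If the equations `D(n, x_1, ..., x_i) = 0` with `D ∈ B(κ, n)` have at most `c` solutions, then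
   `hmax_κ(n) ≤ h_2(3 c (n + 1)^(4 n + 4))`.
2. So `h_2(n) ≤ h_κ(n) ≤ hmax_κ(n) ≤ h_2(3 κ (n + 1)^(4 n + 4))` for finite `κ`: Q1 is one question for all
   finite `κ`, and for these `κ` it does not matter if one bounds one solution or all solutions; if the answer
   is yes for `κ = 2` then there is a computable bound as a function of `κ` and `n`.
3. For `κ = ω`: all solutions are bounded by a computable function if and only if the answer to Q1 for `κ = 2`
   is yes and the number of the solutions is bounded by a computable function.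
4. Q1 for `κ` (also for `κ = ω`) has the answer yes if and only if, for all `n` in some infinite computable set,
   a partial algorithm gives at most `k` numbers (it is not known which is right, nor how many appear) one of
   which is at least `h_κ(n)`. So if the answer is no then no algorithm with boundedly many changes of its mind
   finds bounds on an infinite computable set of `n`.

Idea of the proof: in `D(n, x_1, ..., x_i)` the number `n` is a constant, and the equation then has the same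
solutions for all values of the parameter. If there are exactly `m` solutions then the system which says that
`z^1, ..., z^m` are solutions with `f(z^1) < ... < f(z^m)` has exactly one solution; here `f` is the injective
polynomial function `(s + 1)^(i + 1) + ∑ z_t (s + 1)^t`, `s = ∑ z_t`, and each inequality has a slack variable.
It is not known which `m` is right, but the size of the new equation is bounded. For 4, the equations for small
`n` are among those for large `n`, so that a bound for large `n` is a bound for all small `n`. Let `q` be the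
largest number such that for infinitely many `n` at least `q` guesses appear; one searches for large `n` for
which `q` guesses have appeared.
-/

set_option autoImplicit false

namespace Pool.Agent.Results.MP_249e8c_lc.AllFiniteFolds

open MvPolynomial

/-- polynomials `D(x, x_1, ..., x_i)` with integer coefficients; the variable `x` is `none` -/
abbrev Poly (i : ℕ) := MvPolynomial (Option (Fin i)) ℤ

/-- the solutions in natural numbers of `D(j, x_1, ..., x_i) = 0` -/
def Sol {i : ℕ} (D : Poly i) (j : ℕ) : Set (Fin i → ℕ) :=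
  {z | eval (fun o : Option (Fin i) => ((o.elim j z : ℕ) : ℤ)) D = 0}

/-- `D` is in `B(κ, n)`: at most `n` unknowns, degree at most `n`, coefficients in `[-n, n]`, and for each
`j` the equation `D(j, x_1, ..., x_i) = 0` has at least one solution and fewer than `κ` solutions. Here
`κ = ⊤` stands for `ω`. -/
def InB (κ : ℕ∞) (n : ℕ) {i : ℕ} (D : Poly i) : Prop :=
  i ≤ n ∧ D.totalDegree ≤ n ∧ (∀ m, |D.coeff m| ≤ n) ∧
    ∀ j, (Sol D j).Nonempty ∧ (Sol D j).encard < κ

/-- the function of the problem: the least `b` such that for each `D` in `B(κ, n)` the equation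
`D(n, x_1, ..., x_i) = 0` has a solution with all `x_t ≤ b` -/
noncomputable def h (κ : ℕ∞) (n : ℕ) : ℕ :=
  sInf {b | ∀ (i : ℕ) (D : Poly i), InB κ n D → ∃ z ∈ Sol D n, ∀ t, z t ≤ b}

/-- the least `b` such that for each `D` in `B(κ, n)` all solutions of `D(n, x_1, ..., x_i) = 0` have all
`x_t ≤ b` -/
noncomputable def hmax (κ : ℕ∞) (n : ℕ) : ℕ :=
  sInf {b | ∀ (i : ℕ) (D : Poly i), InB κ n D → ∀ z ∈ Sol D n, ∀ t, z t ≤ b}

/-- the answer to Q1 for `κ` is yes -/
def Q1 (κ : ℕ∞) : Prop := ∃ F : ℕ → ℕ, Computable F ∧ ∀ n, 1 ≤ n → h κ n ≤ F n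

/-- `hmax κ` is majorized by a computable function -/
def Q1max (κ : ℕ∞) : Prop := ∃ F : ℕ → ℕ, Computable F ∧ ∀ n, 1 ≤ n → hmax κ n ≤ F n

/-- The numbers of solutions of `D(n, x_1, ..., x_i) = 0`, `D` in `B(ω, n)`, are bounded by a computable
function of `n`. -/
def NumberBounded : Prop := ∃ c : ℕ → ℕ, Computable c ∧ ∀ n, 1 ≤ n →
  ∀ (i : ℕ) (D : Poly i), InB ⊤ n D → (Sol D n).encard ≤ c n

/-- the sets of which `h` and `hmax` are the least elements are not empty -/
lemma exist (κ : ℕ∞) (n : ℕ) :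
    (∀ (i : ℕ) (D : Poly i), InB κ n D → ∃ z ∈ Sol D n, ∀ t, z t ≤ h κ n) ∧
      ∀ (i : ℕ) (D : Poly i), InB κ n D → ∀ z ∈ Sol D n, ∀ t, z t ≤ hmax κ n :=
  ⟨Pool.Agent.H201.HK.least_h κ n, Pool.Agent.H201.HK.largest_hmax κ n⟩

/-- **All finite `κ` give the same question.** -/
theorem result :
    -- `h` and `hmax` are bounds (the infima are attained)
    (∀ (κ : ℕ∞) (n : ℕ), (∀ (i : ℕ) (D : Poly i), InB κ n D → ∃ z ∈ Sol D n, ∀ t, z t ≤ h κ n) ∧
      ∀ (i : ℕ) (D : Poly i), InB κ n D → ∀ z ∈ Sol D n, ∀ t, z t ≤ hmax κ n) ∧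
    -- bounds for all solutions from the number of the solutions and `h_2`
    (∀ (κ : ℕ∞) (n c : ℕ), 1 ≤ n → (∀ (i : ℕ) (D : Poly i), InB κ n D → (Sol D n).encard ≤ c) →
      hmax κ n ≤ h 2 (3 * c * (n + 1) ^ (4 * n + 4))) ∧
    -- finite `κ`
    (∀ k n : ℕ, 2 ≤ k → 1 ≤ n → h 2 n ≤ h k n ∧ h k n ≤ hmax k n ∧
      hmax k n ≤ h 2 (3 * k * (n + 1) ^ (4 * n + 4))) ∧
    (∀ k : ℕ, 2 ≤ k → (Q1 k ↔ Q1 2) ∧ (Q1max k ↔ Q1 2)) ∧
    (Q1 2 ↔ ∃ F : ℕ × ℕ → ℕ, Computable F ∧ ∀ k n : ℕ, 2 ≤ k → 1 ≤ n → hmax k n ≤ F (k, n)) ∧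
    -- `κ = ω`
    (Q1max ⊤ ↔ Q1 2 ∧ NumberBounded) ∧
    -- boundedly many guesses on an infinite computable set of `n`
    (∀ κ : ℕ∞, Q1 κ ↔ ∃ (k : ℕ) (A : ℕ × ℕ →. ℕ) (r : ℕ → Bool), Partrec A ∧ Computable r ∧
      (∀ m, ∃ n, m ≤ n ∧ r n = true) ∧
      ∀ n, r n = true → ∃ i < k, ∃ v ∈ A (i, n), h κ n ≤ v) := by
  have e1 : ∀ (κ : ℕ∞) (n c : ℕ), 1 ≤ n →
      (∀ (i : ℕ) (D : Poly i), InB κ n D → (Sol D n).encard ≤ c) →
      hmax κ n ≤ h 2 (3 * c * (n + 1) ^ (4 * n + 4)) :=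
    fun κ n c hn hc => Pool.Agent.H201.HK.hmax_le_h2 hn hc
  have e2 : ∀ (κ : ℕ∞) (n : ℕ), h κ n ≤ hmax κ n := Pool.Agent.H201.HK.h_le_hmax
  have e3 : ∀ k n : ℕ, 1 ≤ n → hmax k n ≤ h 2 (3 * k * (n + 1) ^ (4 * n + 4)) :=
    fun k n hn => e1 k n k hn fun i D hD => (hD.2.2.2 n).2.le
  have e4 : ∀ k n : ℕ, 2 ≤ k → h 2 n ≤ h k n := fun k n hk =>
    Pool.Agent.H201.HK.h_mono (by exact_mod_cast hk) n
  have c1 : Computable (fun z : ℕ × ℕ => 3 * z.1 * (z.2 + 1) ^ (4 * z.2 + 4)) := by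
    have h0 : Primrec (fun z : ℕ × ℕ => 3 * z.1 * (z.2 + 1) ^ (4 * z.2 + 4)) := by fun_prop
    exact h0.to_comp
  have p1 : ∀ z : ℕ × ℕ, 1 ≤ z.1 → 1 ≤ 3 * z.1 * (z.2 + 1) ^ (4 * z.2 + 4) := fun z hz =>
    Nat.succ_le_of_lt (Nat.mul_pos (by omega) (Nat.pow_pos (Nat.succ_pos _)))
  have e5 : Q1 2 → ∃ F : ℕ × ℕ → ℕ, Computable F ∧ ∀ k n : ℕ, 2 ≤ k → 1 ≤ n →
      hmax k n ≤ F (k, n) := by
    rintro ⟨F, hF, hF2⟩
    exact ⟨fun z => F (3 * z.1 * (z.2 + 1) ^ (4 * z.2 + 4)), hF.comp c1, fun k n hk hn =>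
      (e3 k n hn).trans (hF2 _ (p1 (k, n) (show 1 ≤ k by omega)))⟩
  have e6 : ∀ k : ℕ, 2 ≤ k → Q1 2 → Q1max k := fun k hk hq => by
    obtain ⟨F, hF, hF2⟩ := e5 hq
    exact ⟨fun n => F (k, n), hF.comp ((Computable.const k).pair Computable.id),
      fun n hn => hF2 k n hk hn⟩
  have e7 : ∀ κ : ℕ∞, Q1max κ → Q1 κ := fun κ ⟨F, hF, hF2⟩ =>
    ⟨F, hF, fun n hn => (e2 κ n).trans (hF2 n hn)⟩
  have e8 : ∀ κ : ℕ∞, 2 ≤ κ → Q1 κ → Q1 2 := fun κ hκ ⟨F, hF, hF2⟩ =>
    ⟨F, hF, fun n hn => (Pool.Agent.H201.HK.h_mono hκ n).trans (hF2 n hn)⟩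
  refine ⟨exist, e1, fun k n hk hn => ⟨e4 k n hk, e2 k n, e3 k n hn⟩, fun k hk => ?_, ⟨e5, ?_⟩, ?_,
    fun κ => ?_⟩
  · have hk' : (2 : ℕ∞) ≤ k := by exact_mod_cast hk
    exact ⟨⟨e8 k hk', fun hq => e7 k (e6 k hk hq)⟩, ⟨fun hq => e8 k hk' (e7 k hq), e6 k hk⟩⟩
  · rintro ⟨F, hF, hF2⟩
    exact ⟨fun n => F (2, n), hF.comp ((Computable.const 2).pair Computable.id),
      fun n hn => (e2 2 n).trans (hF2 2 n le_rfl hn)⟩
  · constructor
    · rintro ⟨F, hF, hF2⟩
      refine ⟨e8 ⊤ le_top (e7 ⊤ ⟨F, hF, hF2⟩), fun n => (F n + 1) ^ n, ?_, fun n hn i D hD => ?_⟩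
      · have h0 : Primrec (fun z : ℕ × ℕ => (z.1 + 1) ^ z.2) := by fun_prop
        exact h0.to_comp.comp (hF.pair Computable.id)
      · exact Pool.Agent.H201.HK.card_le (hF2 n hn) hD
    · rintro ⟨⟨F, hF, hF2⟩, c, hc, hc2⟩
      refine ⟨fun n => F (3 * (c n + 1) * (n + 1) ^ (4 * n + 4)),
        hF.comp (c1.comp ((Computable.succ.comp hc).pair Computable.id)), fun n hn => ?_⟩
      refine (e1 ⊤ n (c n + 1) hn fun i D hD => (hc2 n hn i D hD).trans ?_).trans
        (hF2 _ (p1 (c n + 1, n) (show 1 ≤ c n + 1 by omega)))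
      exact_mod_cast Nat.le_succ _
  · constructor
    · rintro ⟨F, hF, hF2⟩
      refine ⟨1, fun z => Part.some (F z.2), fun n => decide (1 ≤ n),
        (hF.comp Computable.snd).partrec, ?_, fun m => ⟨m + 1, by omega, by simp⟩, fun n hn => ?_⟩
      · have h0 : Primrec (fun n : ℕ => decide (1 ≤ n)) := by fun_prop
        exact h0.to_comp
      · exact ⟨0, Nat.one_pos, F n, Part.mem_some _, hF2 n (of_decide_eq_true hn)⟩
    · rintro ⟨k, A, r, hA, hr, hinf, hg⟩
      exact Pool.Agent.H201.HK.guess k hA hr hinf hg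

end Pool.Agent.Results.MP_249e8c_lc.AllFiniteFolds
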