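import Pool.Agent.H201.HK.Part

/-!
# Q1 for `κ = ω` and counting the solutions

Q1 for `κ = ω` asks if one solution of each equation `D(n, x_1, ..., x_i) = 0`, `D ∈ B(ω, n)`, is bounded by a
computable function of `n`; here the equations have finitely many solutions, at least one. Let `hmax_ω(n)` be
the least bound for all solutions of these equations.

**Theorem.**

1. Q1 for `κ = ω` has the answer yes if and only if there is a partial algorithm which stops for all equations
   with finitely many solutions (and perhaps for others) and then gives the number of the solutions.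
2. `hmax_ω` is majorized by a computable function if and only if there is a total algorithm with this property
   (for the equations with infinitely many solutions it may give any number). This holds if and only if Q1 has
   the answer yes for `κ = 2` and the numbers of the solutions of the equations in the definition of `h_ω` are
   bounded by a computable function.

So the difference between a bound for one solution and a bound for all solutions is that between partial and
total algorithms. Idea of the proof of 1: if it can be decided whether an equation with finitely many solutions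
has a solution then one can look for a number `b` such that there are no solutions with `x_1 + ... + x_i ≥ b`;
for an equation with finitely many solutions this terminates, and then the solutions can be counted.
Conversely, for each equation one looks for a solution and waits for the result of the counting algorithm; one
of the two will be found, and both tell if there is a solution. For 2, if the number is known then one can
look for all solutions; this terminates for all equations.
-/

set_option autoImplicit false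

namespace Pool.Agent.Results.MP_249e8c_lc.CountingSolutions

open MvPolynomial

/-- polynomials `D(x, x_1, ..., x_i)` with integer coefficients; the variable `x` is `none` -/
abbrev Poly (i : ℕ) := MvPolynomial (Option (Fin i)) ℤ

/-- the solutions in natural numbers of `D(j, x_1, ..., x_i) = 0` -/
def Sol {i : ℕ} (D : Poly i) (j : ℕ) : Set (Fin i → ℕ) :=
  {z | eval (fun o : Option (Fin i) => ((o.elim j z : ℕ) : ℤ)) D = 0}

/-- `D` is in `B(κ, n)`: at most `n` unknowns, degree at most `n`, coefficients in `[-n, n]`, and for each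
`j` the equation `D(j, x_1, ..., x_i) = 0` has at least one solution and fewer than `κ` solutions. Here
`κ = ⊤` stands for `ω`. -/
def InB (κ : ℕ∞) (n : ℕ) {i : ℕ} (D : Poly i) : Prop :=
  i ≤ n ∧ D.totalDegree ≤ n ∧ (∀ m, |D.coeff m| ≤ n) ∧
    ∀ j, (Sol D j).Nonempty ∧ (Sol D j).encard < κ

/-- the function of the problem: the least `b` such that for each `D` in `B(κ, n)` the equation
`D(n, x_1, ..., x_i) = 0` has a solution with all `x_t ≤ b` -/
noncomputable def h (κ : ℕ∞) (n : ℕ) : ℕ :=
  sInf {b | ∀ (i : ℕ) (D : Poly i), InB κ n D → ∃ z ∈ Sol D n, ∀ t, z t ≤ b}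

/-- the least `b` such that for each `D` in `B(κ, n)` all solutions of `D(n, x_1, ..., x_i) = 0` have all
`x_t ≤ b` -/
noncomputable def hmax (κ : ℕ∞) (n : ℕ) : ℕ :=
  sInf {b | ∀ (i : ℕ) (D : Poly i), InB κ n D → ∀ z ∈ Sol D n, ∀ t, z t ≤ b}

/-- the answer to Q1 for `κ` is yes -/
def Q1 (κ : ℕ∞) : Prop := ∃ F : ℕ → ℕ, Computable F ∧ ∀ n, 1 ≤ n → h κ n ≤ F n

/-- `hmax κ` is majorized by a computable function -/
def Q1max (κ : ℕ∞) : Prop := ∃ F : ℕ → ℕ, Computable F ∧ ∀ n, 1 ≤ n → hmax κ n ≤ F n

/-- The numbers of solutions of `D(n, x_1, ..., x_i) = 0`, `D` in `B(ω, n)`, are bounded by a computable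
function of `n`. -/
def NumberBounded : Prop := ∃ c : ℕ → ℕ, Computable c ∧ ∀ n, 1 ≤ n →
  ∀ (i : ℕ) (D : Poly i), InB ⊤ n D → (Sol D n).encard ≤ c n

/-- a polynomial with natural coefficients: a list of terms `(a, [e_1, e_2, ...])`, which stand for
`a x_1^(e_1) x_2^(e_2) ...` -/
abbrev Side := List (ℕ × List ℕ)

/-- its value at `z` (missing exponents are `0`) -/
def val (l : Side) {i : ℕ} (z : Fin i → ℕ) : ℕ :=
  (l.map fun x => x.1 * ∏ t, z t ^ x.2.getD t 0).sum

/-- an equation: the number of the unknowns, the left hand side, the right hand side -/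
abbrev Equation := ℕ × Side × Side

/-- the solutions in natural numbers of the equation -/
def Solutions (p : Equation) : Set (Fin p.1 → ℕ) := {z | val p.2.1 z = val p.2.2 z}

/-- **Q1 for `κ = ω` and counting.** -/
theorem result :
    -- one solution: partial counting
    (Q1 ⊤ ↔ ∃ N : Equation →. ℕ, Partrec N ∧
      ∀ p, (Solutions p).Finite → ∃ v ∈ N p, (Solutions p).encard = (v : ℕ)) ∧
    -- all solutions: total counting
    (Q1max ⊤ ↔ ∃ N : Equation → ℕ, Computable N ∧
      ∀ p, (Solutions p).Finite → (Solutions p).encard = N p) ∧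
    (Q1max ⊤ ↔ Q1 2 ∧ NumberBounded) := by
  have e7 : Q1max ⊤ → Q1 ⊤ := fun ⟨F, hF, hF2⟩ =>
    ⟨F, hF, fun n hn => (Pool.Agent.H201.HK.h_le_hmax ⊤ n).trans (hF2 n hn)⟩
  have e8 : Q1 ⊤ → Q1 2 := fun ⟨F, hF, hF2⟩ =>
    ⟨F, hF, fun n hn => (Pool.Agent.H201.HK.h_mono le_top n).trans (hF2 n hn)⟩
  refine ⟨⟨?_, ?_⟩, ⟨?_, ?_⟩, ⟨?_, ?_⟩⟩
  · rintro ⟨F, hF, hF2⟩
    obtain ⟨S, hS, hS2⟩ := Pool.Agent.H201.HK.decide_of_bound hF hF2
    obtain ⟨N, hN, hN2⟩ := Pool.Agent.H201.HK.partial_of_decide hS hS2
    exact ⟨N, hN, fun p hp => hN2 p.1 p.2.1 p.2.2 hp⟩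
  · rintro ⟨N, hN, hN2⟩
    obtain ⟨S, hS, hS2⟩ := Pool.Agent.H201.HK.decide_of_partial hN
      fun i l r hfin => hN2 (i, l, r) hfin
    exact Pool.Agent.H201.HK.bound_of_decide hS hS2
  · rintro ⟨F, hF, hF2⟩
    obtain ⟨N, hN, hN2⟩ := Pool.Agent.H201.HK.total_of_bound hF hF2
    exact ⟨N, hN, fun p hp => hN2 p.1 p.2.1 p.2.2 hp⟩
  · rintro ⟨N, hN, hN2⟩
    exact Pool.Agent.H201.HK.bound_of_total hN fun i l r hfin => hN2 (i, l, r) hfin
  · rintro ⟨F, hF, hF2⟩
    refine ⟨e8 (e7 ⟨F, hF, hF2⟩), fun n => (F n + 1) ^ n, ?_, fun n hn i D hD => ?_⟩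
    · have h0 : Primrec (fun z : ℕ × ℕ => (z.1 + 1) ^ z.2) := by fun_prop
      exact h0.to_comp.comp (hF.pair Computable.id)
    · exact Pool.Agent.H201.HK.card_le (hF2 n hn) hD
  · rintro ⟨⟨F, hF, hF2⟩, c, hc, hc2⟩
    have c1 : Computable (fun z : ℕ × ℕ => 3 * z.1 * (z.2 + 1) ^ (4 * z.2 + 4)) := by
      have h0 : Primrec (fun z : ℕ × ℕ => 3 * z.1 * (z.2 + 1) ^ (4 * z.2 + 4)) := by fun_prop
      exact h0.to_comp
    refine ⟨fun n => F (3 * (c n + 1) * (n + 1) ^ (4 * n + 4)),
      hF.comp (c1.comp ((Computable.succ.comp hc).pair Computable.id)), fun n hn => ?_⟩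
    refine (Pool.Agent.H201.HK.hmax_le_h2 (c := c n + 1) hn fun i D hD =>
      (hc2 n hn i D hD).trans ?_).trans (hF2 _ ?_)
    · exact_mod_cast Nat.le_succ _
    · exact Nat.succ_le_of_lt (Nat.mul_pos (by omega) (Nat.pow_pos (Nat.succ_pos _)))

end Pool.Agent.Results.MP_249e8c_lc.CountingSolutions
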