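import Pool.Agent.H201.HK.Enum

/-!
# Q1 as a decision problem for equations with few solutions

Q1 for `κ` asks if the bound `h_κ(n)` for one solution of the equations `D(n, x_1, ..., x_i) = 0`,
`D ∈ B(κ, n)`, is majorized by a computable function. Here it is shown that this is the question if Hilbert's
tenth problem is decidable under the promise that the equation has fewer than `κ` solutions.

**Theorem.**

1. For all `κ` (also for `κ = ω`) Q1 has the answer yes if and only if there is an algorithm which, given an
   equation with fewer than `κ` solutions in natural numbers, decides if it has a solution. (The algorithm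
   stops for all equations, but its answer may be wrong if there are `κ` or more solutions.)
2. For each finite `κ ≥ 2`, Q1 for `κ` is equivalent to this for equations with at most one solution, and
   also to the existence of an algorithm which, given `k` and an equation with fewer than `k` solutions,
   computes the number of its solutions.
3. If a single undecidable set of natural numbers has a `κ`-fold Diophantine representation then Q1 for `κ`
   has the answer no; if moreover `κ` is finite then Q1 has the answer no for all `κ' ≥ 2`.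

So, for a negative answer to Q1 for all `κ`, it is enough that one undecidable set has a finite-fold
representation with boundedly many solutions, and a positive answer for one finite `κ` implies that all sets
with such representations are decidable.

Idea of the proof: for 1, an equation with fewer than `κ` solutions and at least one is, with a parameter on
which it does not depend, a member of `B(κ, n)`, where `n` is its size; so it is enough to test the points
`≤ F(n)`. Conversely, if the algorithm says yes then there is a solution (a wrong yes is possible only if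
there are at least `κ` solutions), which can be found by a search; all equations `D(n, ...) = 0` of bounded
size can be listed. For 2 see the hand-in `AllFiniteFolds`: if there are exactly `m` solutions then the
ordered `m`-tuples of different solutions are the solutions of an equation with exactly one solution.
-/

set_option autoImplicit false

namespace Pool.Agent.Results.MP_249e8c_lc.PromiseProblem

open MvPolynomial

/-- polynomials `D(x, x_1, ..., x_i)` with integer coefficients; the variable `x` is `none` -/
abbrev Poly (i : ℕ) := MvPolynomial (Option (Fin i)) ℤ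

/-- the solutions in natural numbers of `D(j, x_1, ..., x_i) = 0` -/
def Sol {i : ℕ} (D : Poly i) (j : ℕ) : Set (Fin i → ℕ) :=
  {z | eval (fun o : Option (Fin i) => ((o.elim j z : ℕ) : ℤ)) D = 0}

/-- `D` is in `B(κ, n)`: at most `n` unknowns, degree at most `n`, coefficients in `[-n, n]`, and for each
`j` the equation `D(j, x_1, ..., x_i) = 0` has at least one solution and fewer than `κ` solutions. Here
`κ = ⊤` stands for `ω`. -/
def InB (κ : ℕ∞) (n : ℕ) {i : ℕ} (D : Poly i) : Prop :=
  i ≤ n ∧ D.totalDegree ≤ n ∧ (∀ m, |D.coeff m| ≤ n) ∧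
    ∀ j, (Sol D j).Nonempty ∧ (Sol D j).encard < κ

/-- the function of the problem: the least `b` such that for each `D` in `B(κ, n)` the equation
`D(n, x_1, ..., x_i) = 0` has a solution with all `x_t ≤ b` -/
noncomputable def h (κ : ℕ∞) (n : ℕ) : ℕ :=
  sInf {b | ∀ (i : ℕ) (D : Poly i), InB κ n D → ∃ z ∈ Sol D n, ∀ t, z t ≤ b}

/-- the answer to Q1 for `κ` is yes -/
def Q1 (κ : ℕ∞) : Prop := ∃ F : ℕ → ℕ, Computable F ∧ ∀ n, 1 ≤ n → h κ n ≤ F n

/-- a polynomial with natural coefficients: a list of terms `(a, [e_1, e_2, ...])`, which stand for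
`a x_1^(e_1) x_2^(e_2) ...` -/
abbrev Side := List (ℕ × List ℕ)

/-- its value at `z` (missing exponents are `0`) -/
def val (l : Side) {i : ℕ} (z : Fin i → ℕ) : ℕ :=
  (l.map fun x => x.1 * ∏ t, z t ^ x.2.getD t 0).sum

/-- an equation: the number of the unknowns, the left hand side, the right hand side -/
abbrev Equation := ℕ × Side × Side

/-- the solutions in natural numbers of the equation -/
def Solutions (p : Equation) : Set (Fin p.1 → ℕ) := {z | val p.2.1 z = val p.2.2 z}

/-- There is an algorithm which decides if there is a solution, for the equations with fewer than `κ`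
solutions. -/
def PromiseDecidable (κ : ℕ∞) : Prop := ∃ S : Equation → Bool, Computable S ∧
  ∀ p, (Solutions p).encard < κ → (S p = true ↔ (Solutions p).Nonempty)

/-- There is an algorithm which computes the number of the solutions from `k` and an equation with fewer
than `k` solutions. -/
def PromiseCountable : Prop := ∃ N : ℕ × Equation → ℕ, Computable N ∧
  ∀ (k : ℕ) (p : Equation), (Solutions p).encard < k → (Solutions p).encard = N (k, p)

/-- the set given by `W` is not decidable, and `W` is a `κ`-fold representation of it -/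
def UndecidableRepresented (κ : ℕ∞) : Prop := ∃ (i : ℕ) (W : Poly i),
  ¬ ComputablePred (fun a : ℕ => (Sol W a).Nonempty) ∧ ∀ a, (Sol W a).encard < κ

lemma promise_iff {κ : ℕ∞} (hκ : 1 ≤ κ) (S : Equation → Bool) :
    (∀ p, (Solutions p).encard < κ → (S p = true ↔ (Solutions p).Nonempty)) ↔
    ∀ (i : ℕ) (l r : Side), (Pool.Agent.H201.HK.NS i l r = ∅ → S (i, l, r) = false) ∧
      ((Pool.Agent.H201.HK.NS i l r).Nonempty → (Pool.Agent.H201.HK.NS i l r).encard < κ →
        S (i, l, r) = true) := by
  constructor
  · intro h1 i l r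
    have h2 := h1 (i, l, r)
    change (Pool.Agent.H201.HK.NS i l r).encard < κ →
      (S (i, l, r) = true ↔ (Pool.Agent.H201.HK.NS i l r).Nonempty) at h2
    refine ⟨fun h3 => ?_, fun h3 h4 => (h2 h4).2 h3⟩
    rw [h3, Set.encard_empty] at h2
    have h4 := h2 (lt_of_lt_of_le zero_lt_one hκ)
    cases h5 : S (i, l, r) with
    | false => rfl
    | true => exact absurd (h4.1 h5) (by simp)
  · rintro h1 ⟨i, l, r⟩ h2
    obtain ⟨h3, h4⟩ := h1 i l r
    constructor
    · intro h5
      change (Pool.Agent.H201.HK.NS i l r).Nonempty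
      rw [Set.nonempty_iff_ne_empty]
      intro h6
      rw [h3 h6] at h5
      exact Bool.noConfusion h5
    · intro h5
      exact h4 h5 h2

/-- **Q1 is the decidability of solvability for equations with fewer than `κ` solutions.** -/
theorem result :
    -- Q1 is a promise problem
    (∀ κ : ℕ∞, 1 ≤ κ → (Q1 κ ↔ PromiseDecidable κ)) ∧
    -- finite `κ`: at most one solution, and counting
    (∀ k : ℕ, 2 ≤ k → (Q1 k ↔ PromiseDecidable 2) ∧ (Q1 k ↔ PromiseCountable)) ∧
    -- one undecidable set
    (∀ κ : ℕ∞, UndecidableRepresented κ → ¬ Q1 κ) ∧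
    ∀ k : ℕ, UndecidableRepresented k → ∀ κ : ℕ∞, 2 ≤ κ → ¬ Q1 κ := by
  have e1 : ∀ κ : ℕ∞, 1 ≤ κ → (Q1 κ ↔ PromiseDecidable κ) := by
    intro κ hκ
    constructor
    · rintro ⟨F, hF, hF2⟩
      obtain ⟨S, hS, hS2⟩ := Pool.Agent.H201.HK.decide_of_bound hF hF2
      exact ⟨S, hS, (promise_iff hκ S).2 hS2⟩
    · rintro ⟨S, hS, hS2⟩
      exact Pool.Agent.H201.HK.bound_of_decide hS ((promise_iff hκ S).1 hS2)
  have e2 : ∀ κ : ℕ∞, 2 ≤ κ → Q1 κ → Q1 2 := fun κ hκ ⟨F, hF, hF2⟩ =>
    ⟨F, hF, fun n hn => (Pool.Agent.H201.HK.h_mono hκ n).trans (hF2 n hn)⟩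
  have c1 : Computable (fun z : ℕ × ℕ => 3 * z.1 * (z.2 + 1) ^ (4 * z.2 + 4)) := by
    have h0 : Primrec (fun z : ℕ × ℕ => 3 * z.1 * (z.2 + 1) ^ (4 * z.2 + 4)) := by fun_prop
    exact h0.to_comp
  have e3 : Q1 2 → ∃ F : ℕ × ℕ → ℕ, Computable F ∧ ∀ k n : ℕ, 2 ≤ k → 1 ≤ n →
      Pool.Agent.H201.HK.hmax k n ≤ F (k, n) := by
    rintro ⟨F, hF, hF2⟩
    refine ⟨fun z => F (3 * z.1 * (z.2 + 1) ^ (4 * z.2 + 4)), hF.comp c1, fun k n hk hn => ?_⟩
    refine (Pool.Agent.H201.HK.hmax_le_h2 (c := k) hn fun i D hD => (hD.2.2.2 n).2.le).trans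
      (hF2 _ ?_)
    exact Nat.succ_le_of_lt (Nat.mul_pos (by omega) (Nat.pow_pos (Nat.succ_pos _)))
  have e4 : ∀ k : ℕ, 2 ≤ k → Q1 2 → Q1 k := fun k hk hq => by
    obtain ⟨F, hF, hF2⟩ := e3 hq
    exact ⟨fun n => F (k, n), hF.comp ((Computable.const k).pair Computable.id),
      fun n hn => (Pool.Agent.H201.HK.h_le_hmax k n).trans (hF2 k n hk hn)⟩
  have e5 : ∀ κ : ℕ∞, UndecidableRepresented κ → ¬ Q1 κ := by
    rintro κ ⟨i, W, hW, hW2⟩ ⟨F, hF, hF2⟩
    obtain ⟨S, hS, hS2⟩ := Pool.Agent.H201.HK.decide_of_bound hF hF2
    exact hW (Pool.Agent.H201.HK.decide_rep hS hS2 W hW2)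
  refine ⟨e1, fun k hk => ?_, e5, fun k hk κ hκ hq => ?_⟩
  · have hk' : (2 : ℕ∞) ≤ k := by exact_mod_cast hk
    have g1 : Q1 k ↔ Q1 2 := ⟨e2 k hk', e4 k hk⟩
    refine ⟨g1.trans (e1 2 (by norm_num)), g1.trans ⟨fun hq => ?_, ?_⟩⟩
    · obtain ⟨F, hF, hF2⟩ := e3 hq
      obtain ⟨N, hN, hN2⟩ := Pool.Agent.H201.HK.count_of_bound hF hF2
      exact ⟨N, hN, fun k p hp => hN2 k p.1 p.2.1 p.2.2 hp⟩
    · rintro ⟨N, hN, hN2⟩
      rw [e1 2 (by norm_num)]
      refine ⟨fun p => decide (1 ≤ N (2, p)), ?_, fun p hp => ?_⟩
      · have h0 : Primrec (fun n : ℕ => decide (1 ≤ n)) := by fun_prop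
        exact h0.to_comp.comp (hN.comp ((Computable.const 2).pair Computable.id))
      · have h1 := hN2 2 p (by exact_mod_cast hp)
        rw [decide_eq_true_eq, ← Set.one_le_encard_iff_nonempty, h1]
        exact_mod_cast Iff.rfl
  · have h1 : Q1 k := by
      rcases Nat.lt_or_ge k 2 with h2 | h2
      · exfalso
        obtain ⟨i, W, hW, hW2⟩ := hk
        apply hW
        have h3 : ∀ a, ¬ (Sol W a).Nonempty := by
          intro a h4
          have h5 := Set.one_le_encard_iff_nonempty.2 h4
          have h6 : (1 : ℕ∞) < k := lt_of_le_of_lt h5 (hW2 a)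
          have h7 : 1 < k := by exact_mod_cast h6
          omega
        classical
        refine ⟨inferInstance, (Computable.const false).of_eq fun a => ?_⟩
        exact (decide_eq_false (h3 a)).symm
      · exact e4 k h2 (e2 κ hκ hq)
    exact e5 k hk h1

end Pool.Agent.Results.MP_249e8c_lc.PromiseProblem
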